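import Pool.Agent.Lib.TG.CountT
import Pool.Agent.Lib.TGA_h75.Atlas
import Pool.Agent.Lib.TG.A5

/-!
# TANK G, STEP 2: the count for a chart of a toric atlas of index `1`
-/

set_option autoImplicit false

open Polynomial

namespace Pool.Agent.TGAh24

open Pool.Agent.TG Pool.Agent.TG.Cnt
open Pool.Agent.GR (Vec InCone)
open Pool.Agent.LU2 (locV IsPar Mono le_locV locV_mono locV_le locV_inv locV_mem locV_locV)
open Module (finrank)

universe u

variable {k K : Type u} [Field k] [Field K] [Algebra k K] {V : ValuationSubring K}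

/-! ### Algebraic elements -/

theorem isAlgebraic_iff_poly {A : Subalgebra k K} {x : K} :
    IsAlgebraic A x ↔ ∃ p : K[X], p ≠ 0 ∧ (∀ i, p.coeff i ∈ A) ∧ p.eval x = 0 := by
  constructor
  · rintro ⟨p, hp, hpx⟩
    refine ⟨p.map (algebraMap A K), ?_, fun i => ?_, ?_⟩
    · rwa [Polynomial.map_ne_zero_iff (FaithfulSMul.algebraMap_injective A K)]
    · rw [Polynomial.coeff_map]
      exact (p.coeff i).2
    · rw [Polynomial.eval_map]
      exact hpx
  · rintro ⟨p, hp, hc, h0⟩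
    have h1 : p ∈ Polynomial.lifts (algebraMap A K) := by
      rw [Polynomial.lifts_iff_coeff_lifts]
      exact fun i => ⟨⟨p.coeff i, hc i⟩, rfl⟩
    obtain ⟨q, hq⟩ := (Polynomial.mem_lifts _).1 h1
    refine ⟨q, ?_, ?_⟩
    · rintro rfl
      rw [Polynomial.map_zero] at hq
      exact hp hq.symm
    · rw [Polynomial.aeval_def, ← Polynomial.eval_map, hq, h0]

theorem exists_den' {A : Subalgebra k K} (p : K[X])
    (h : ∀ i, ∃ a ∈ A, ∃ c ∈ A, c ≠ 0 ∧ p.coeff i = a / c) :
    ∃ s ∈ A, s ≠ 0 ∧ ∀ i, s * p.coeff i ∈ A := by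
  classical
  have key : ∀ t : Finset ℕ, ∃ s ∈ A, s ≠ 0 ∧ ∀ i ∈ t, s * p.coeff i ∈ A := by
    intro t
    induction t using Finset.induction_on with
    | empty => exact ⟨1, A.one_mem, one_ne_zero, fun i hi => absurd hi (Finset.notMem_empty i)⟩
    | insert j t hj ih =>
      obtain ⟨s, hs, hs0, hst⟩ := ih
      obtain ⟨a, ha, c, hc, hc0, hac⟩ := h j
      refine ⟨s * c, A.mul_mem hs hc, mul_ne_zero hs0 hc0, ?_⟩
      intro i hi
      rcases Finset.mem_insert.1 hi with rfl | hi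
      · rw [hac, show s * c * (a / c) = s * a by field_simp]
        exact A.mul_mem hs ha
      · rw [show s * c * p.coeff i = c * (s * p.coeff i) by ring]
        exact A.mul_mem hc (hst i hi)
  obtain ⟨s, hs, hs0, hst⟩ := key (Finset.range (p.natDegree + 1))
  refine ⟨s, hs, hs0, fun i => ?_⟩
  by_cases hi : i ∈ Finset.range (p.natDegree + 1)
  · exact hst i hi
  · rw [Finset.mem_range, not_lt] at hi
    rw [Polynomial.coeff_eq_zero_of_natDegree_lt (by omega), mul_zero]
    exact A.zero_mem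

theorem isAlgebraic_of_frac {A B : Subalgebra k K} (hB : Algebra.IsAlgebraic B K)
    (h : ∀ b ∈ B, ∃ a ∈ A, ∃ c ∈ A, c ≠ 0 ∧ b = a / c) : Algebra.IsAlgebraic A K := by
  refine ⟨fun x => ?_⟩
  obtain ⟨p, hp, hc, h0⟩ := isAlgebraic_iff_poly.1 (hB.isAlgebraic x)
  obtain ⟨s, hs, hs0, hst⟩ := exists_den' p fun i => h _ (hc i)
  refine isAlgebraic_iff_poly.2 ⟨C s * p, mul_ne_zero (C_ne_zero.2 hs0) hp, fun i => ?_, ?_⟩
  · rw [Polynomial.coeff_C_mul]
    exact hst i
  · rw [Polynomial.eval_mul, h0, mul_zero]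

/-- The quotients of the elements of `A` are a subalgebra. -/
theorem adjoin_frac {A : Subalgebra k K} {S : Set K}
    (h : ∀ b ∈ S, ∃ a ∈ A, ∃ c ∈ A, c ≠ 0 ∧ b = a / c) :
    ∀ b ∈ Algebra.adjoin k S, ∃ a ∈ A, ∃ c ∈ A, c ≠ 0 ∧ b = a / c := by
  intro b hb
  induction hb using Algebra.adjoin_induction with
  | mem x hx => exact h x hx
  | algebraMap c => exact ⟨_, A.algebraMap_mem c, 1, A.one_mem, one_ne_zero, by rw [div_one]⟩
  | add x y _ _ hx hy =>
    obtain ⟨a, ha, c, hc, hc0, rfl⟩ := hx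
    obtain ⟨a', ha', c', hc', hc0', rfl⟩ := hy
    refine ⟨a * c' + c * a', A.add_mem (A.mul_mem ha hc') (A.mul_mem hc ha'), c * c',
      A.mul_mem hc hc', mul_ne_zero hc0 hc0', ?_⟩
    rw [div_add_div _ _ hc0 hc0']
  | mul x y _ _ hx hy =>
    obtain ⟨a, ha, c, hc, hc0, rfl⟩ := hx
    obtain ⟨a', ha', c', hc', hc0', rfl⟩ := hy
    exact ⟨a * a', A.mul_mem ha ha', c * c', A.mul_mem hc hc', mul_ne_zero hc0 hc0', by
      rw [div_mul_div_comm]⟩

/-! ### The chart -/

section Chart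

variable {n N : ℕ} {P : Submodule k K} {Q : Fin N → Submodule k K} {a : Fin N → ℕ}

/-- The character of a chart. -/
def psi (C : TChart n P Q a 1) (b : Vec N) : K := mon C.x (C.φ b)

theorem isChar_psi (C : TChart n P Q a 1) : IsChar (psi C) where
  ne := fun _ => mon_ne_zero C.x_ne _
  add := fun b c => by rw [psi, psi, psi, map_add, mon_add C.x_ne]

theorem phi_surjective (C : TChart n P Q a 1) : Function.Surjective C.φ := fun m => by
  obtain ⟨b, hb⟩ := C.tors m
  exact ⟨b, by rw [hb, one_smul]⟩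

/-- The kernel of the class map. -/
def ker (C : TChart n P Q a 1) : Submodule ℤ (Vec N) := LinearMap.ker C.φ.toIntLinearMap

theorem mem_ker {C : TChart n P Q a 1} {b : Vec N} : b ∈ ker C ↔ C.φ b = 0 := Iff.rfl

theorem finrank_ker (C : TChart n P Q a 1) : C.r + finrank ℤ (ker C) = N := by
  have hf : Function.Surjective C.φ.toIntLinearMap := phi_surjective C
  have h1 := (LinearMap.ker C.φ.toIntLinearMap).finrank_quotient_add_finrank
  rw [(C.φ.toIntLinearMap.quotKerEquivOfSurjective hf).finrank_eq] at h1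
  simp only [Module.finrank_fintype_fun_eq_card, Fintype.card_fin] at h1
  exact h1

/-- The finite sets of vectors which have to be comparable with `0` for the chart `C`. -/
structure Good (C : TChart n P Q a 1) (G : Set (Vec N)) : Prop where
  ker : ker C ≤ Submodule.span ℤ {g | g ∈ G ∧ g ∈ ker C}
  gen : ∃ S : Finset (Vec C.r), AddSubmonoid.closure (S : Set (Vec C.r)) = C.T ∧
    ∀ s ∈ S, ∃ g ∈ G, C.φ g = s

theorem Good.mono {C : TChart n P Q a 1} {G G' : Set (Vec N)} (h : Good C G) (hG : G ⊆ G') :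
    Good C G' := by
  refine ⟨h.ker.trans (Submodule.span_mono fun g hg => ⟨hG hg.1, hg.2⟩), ?_⟩
  obtain ⟨S, h1, h2⟩ := h.gen
  refine ⟨S, h1, fun s hs => ?_⟩
  obtain ⟨g, hg, h3⟩ := h2 s hs
  exact ⟨g, hG hg, h3⟩

theorem exists_good (C : TChart n P Q a 1) : ∃ G : Finset (Vec N), Good C (G : Set (Vec N)) := by
  classical
  obtain ⟨S, hS⟩ := C.T_fg
  obtain ⟨S', hS'⟩ := (IsNoetherian.noetherian (ker C) : (ker C).FG)
  choose g hg using phi_surjective C
  refine ⟨S' ∪ S.image g, ?_, S, hS, fun s hs => ⟨g s, ?_, hg s⟩⟩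
  · rw [← hS']
    refine Submodule.span_mono fun b hb => ⟨?_, ?_⟩
    · exact Finset.mem_coe.2 (Finset.mem_union_left _ (Finset.mem_coe.1 hb))
    · rw [hS']
      have : b ∈ ker C := by
        rw [← hS']
        exact Submodule.subset_span hb
      exact this
  · exact Finset.mem_coe.2 (Finset.mem_union_right _ (Finset.mem_image_of_mem _ hs))

/-- The ring of the chart. -/
def cr (C : TChart n P Q a 1) : Subalgebra k K :=
  Algebra.adjoin k ((tor k C.x C.y C.T : Set K) ∪ {C.θ})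

theorem tor_le {x : Fin N → K} (hx : ∀ i, x i ≠ 0) {D : ℕ} {y : Fin D → K}
    {T : AddSubmonoid (Fin N → ℤ)} {S : Set (Fin N → ℤ)} (hS : AddSubmonoid.closure S = T)
    {B : Subalgebra k K} (h1 : ∀ s ∈ S, mon x s ∈ B) (h2 : ∀ d, y d ∈ B) : tor k x y T ≤ B := by
  refine Algebra.adjoin_le ?_
  rintro z (⟨m, hm, rfl⟩ | ⟨d, rfl⟩)
  · rw [SetLike.mem_coe, ← hS] at hm
    induction hm using AddSubmonoid.closure_induction with
    | mem s hs => exact h1 s hs
    | zero => rw [mon_zero]; exact B.one_mem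
    | add s t _ _ hs ht => rw [mon_add hx]; exact B.mul_mem hs ht
  · exact h2 d

theorem fg_cr (C : TChart n P Q a 1) : (cr C).FG := by
  classical
  obtain ⟨S, hS⟩ := C.T_fg
  refine Subalgebra.fg_def.2 ⟨mon C.x '' (S : Set (Vec C.r)) ∪ Set.range C.y ∪ {C.θ},
    ((S.finite_toSet.image _).union (Set.finite_range _)).union (Set.finite_singleton _), ?_⟩
  refine le_antisymm (Algebra.adjoin_le ?_) (Algebra.adjoin_le ?_)
  · rintro z ((⟨m, hm, rfl⟩ | ⟨d, rfl⟩) | hz)
    · refine Algebra.subset_adjoin (Or.inl (Algebra.subset_adjoin (Or.inl ⟨m, ?_, rfl⟩)))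
      rw [← hS]
      exact AddSubmonoid.subset_closure hm
    · exact Algebra.subset_adjoin (Or.inl (Algebra.subset_adjoin (Or.inr ⟨d, rfl⟩)))
    · exact Algebra.subset_adjoin (Or.inr hz)
  · rintro z (hz | hz)
    · refine (tor_le C.x_ne hS (fun s hs => ?_) fun d => ?_) hz
      · exact Algebra.subset_adjoin (Or.inl (Or.inl ⟨s, hs, rfl⟩))
      · exact Algebra.subset_adjoin (Or.inl (Or.inr ⟨d, rfl⟩))
    · exact Algebra.subset_adjoin (Or.inr hz)

theorem y_mem_cr (C : TChart n P Q a 1) (d : Fin C.D) : C.y d ∈ cr C :=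
  Algebra.subset_adjoin (Or.inl (Algebra.subset_adjoin (Or.inr ⟨d, rfl⟩)))

theorem mon_mem_cr (C : TChart n P Q a 1) {m : Vec C.r} (hm : m ∈ C.T) : mon C.x m ∈ cr C :=
  Algebra.subset_adjoin (Or.inl (Algebra.subset_adjoin (Or.inl ⟨m, hm, rfl⟩)))

theorem θ_mem_cr (C : TChart n P Q a 1) : C.θ ∈ cr C := Algebra.subset_adjoin (Or.inr rfl)

/-- `K` is algebraic over every ring which contains the `y` and the values of `ψ` at a basis. -/
theorem isAlgebraic_chart (hn : Algebra.trdeg k K = n) (C : TChart n P Q a 1)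
    (e : Module.Basis (Fin N) ℤ (Vec N)) {A : Subalgebra k K} (hy : ∀ d, C.y d ∈ A)
    (he : ∀ i, psi C (e i) ∈ A) : Algebra.IsAlgebraic A K := by
  have hb : IsTranscendenceBasis k (Sum.elim C.x C.y) := by
    refine C.ind.isTranscendenceBasis_of_lift_trdeg_le_of_finite ?_
    rw [hn, Cardinal.lift_natCast, Cardinal.mk_fintype, Cardinal.lift_natCast, Fintype.card_sum,
      Fintype.card_fin, Fintype.card_fin, C.dim]
  refine isAlgebraic_of_frac hb.isAlgebraic (adjoin_frac ?_)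
  have hmem : ∀ (m : Fin N → ℤ), ∃ b ∈ A, ∃ c ∈ A, c ≠ 0 ∧
      ∏ i, psi C (e i) ^ m i = b / c := by
    intro m
    refine ⟨∏ i, psi C (e i) ^ (m i).toNat, A.prod_mem fun i _ => A.pow_mem (he i) _,
      ∏ i, psi C (e i) ^ (-m i).toNat, A.prod_mem fun i _ => A.pow_mem (he i) _,
      Finset.prod_ne_zero_iff.2 fun i _ => pow_ne_zero _ ((isChar_psi C).ne _), ?_⟩
    rw [← Finset.prod_div_distrib]
    refine Finset.prod_congr rfl fun i _ => ?_
    rw [eq_div_iff (pow_ne_zero _ ((isChar_psi C).ne _)), ← zpow_natCast, ← zpow_natCast,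
      ← zpow_add₀ ((isChar_psi C).ne _)]
    congr 1
    omega
  rintro _ ⟨i | d, rfl⟩
  · obtain ⟨b, hb⟩ := phi_surjective C (Pi.single i 1)
    have h1 : psi C b = C.x i := by rw [psi, hb, mon_single]
    rw [Sum.elim_inl, ← h1, (isChar_psi C).repr e b]
    exact hmem _
  · exact ⟨_, hy d, 1, A.one_mem, one_ne_zero, by rw [div_one]; rfl⟩

/-- The new ring of a chart. -/
def nr (C : TChart n P Q a 1) (e : Module.Basis (Fin N) ℤ (Vec N)) : Subalgebra k K :=
  cr C ⊔ Algebra.adjoin k (Set.range fun i => psi C (e i))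

theorem fg_nr (C : TChart n P Q a 1) (e : Module.Basis (Fin N) ℤ (Vec N)) : (nr C e).FG :=
  fg_sup_range e (fg_cr C)

/-- **The count for a chart.** -/
theorem chart_par (hn : Algebra.trdeg k K = n) (hP : IsModel P) (C : TChart n P Q a 1)
    {G : Set (Vec N)} (hG : Good C G) (hV : ZDim k V) (hF : ∀ z ∈ C.F, z ∈ V)
    {e : Module.Basis (Fin N) ℤ (Vec N)} (he : ∀ i, psi C (e i) ∈ V)
    (hc : ∀ g ∈ G, InCone e g ∨ InCone e (-g)) :
    (∀ a ∈ nr C e, a ∈ V) ∧
    locV V (nr C e) = locV V (NV V P ⊔ Algebra.adjoin k (Set.range fun i => psi C (e i))) ∧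
    ∃ t : Fin n → K, IsPar V (locV V (nr C e)) t ∧
      (∀ b, MonoZ V (locV V (nr C e)) t (psi C b)) ∧
      ∀ b, InCone e b ∨ InCone e (-b) → Mono V (locV V (nr C e)) t (psi C b) := by
  classical
  have hring : NV V P = locV V (cr C) := C.ring V hV hF
  have hcrV : ∀ z ∈ cr C, z ∈ V := fun z hz => NV_le hV.ov hP z (by
    rw [hring]
    exact le_locV _ hz)
  have hA : ∀ z ∈ nr C e, z ∈ V := sup_range_le hV.ov hcrV he
  refine ⟨hA, by rw [hring, nr, locV_sup], ?_⟩
  have hψ := isChar_psi C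
  have heA : ∀ i, psi C (e i) ∈ nr C e := fun i =>
    (le_sup_right : _ ≤ nr C e) (Algebra.subset_adjoin ⟨i, rfl⟩)
  have heO : ∀ i, psi C (e i) ∈ locV V (nr C e) := fun i => le_locV _ (heA i)
  have hev : ∀ i, V.valuation (psi C (e i)) ≤ 1 := fun i => (V.valuation_le_one_iff _).2 (he i)
  have hyA : ∀ d, C.y d ∈ nr C e := fun d => (le_sup_left : _ ≤ nr C e) (y_mem_cr C d)
  choose c hcy using fun d => hV.res (C.y d) (hA _ (hyA d))
  have hker1 : ∀ u ∈ ker C, psi C u = 1 := by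
    intro u hu
    rw [psi, mem_ker.1 hu, mon_zero]
  obtain ⟨S, hS, hSG⟩ := hG.gen
  refine exists_par hV (fg_nr C e) hA (isAlgebraic_chart hn C e hyA heA) hn hψ e heO
    (y := fun d => C.y d - algebraMap k K (c d))
    (fun d => Subalgebra.sub_mem _ (le_locV _ (hyA d)) (Subalgebra.algebraMap_mem _ _)) hcy
    (ker C) ?_ ?_ ?_ ?_
  · have h1 := finrank_ker C
    have h2 := C.dim
    omega
  · intro u hu i hi
    have h1 : ker C ≤ coo e {i} := by
      refine hG.ker.trans (Submodule.span_le.2 ?_)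
      rintro g ⟨hg, hgU⟩ j hj
      rw [Finset.mem_singleton] at hj
      subst hj
      exact repr_eq_zero hψ hev (hc g hg) (by rw [hker1 g hgU, map_one]) hi
    exact h1 hu i (Finset.mem_singleton_self i)
  · intro J _ _ _ u m hm hmu
    have h1 : C.φ u = 0 := by
      have h2 : m • C.φ u = 0 := by
        rw [← map_zsmul]
        exact mem_ker.1 hmu
      exact (smul_eq_zero.1 h2).resolve_left hm
    rw [hker1 u (mem_ker.2 h1)]
    exact Subalgebra.one_mem _
  · intro J hJ hyJ heJ hec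
    have hyc : ∀ d, C.y d ∈ cst (locV V (nr C e)) J := fun d => ⟨le_locV _ (hyA d), c d, hyJ d⟩
    have hsc : ∀ s ∈ (S : Set (Vec C.r)), mon C.x s ∈ cst (locV V (nr C e)) J := by
      intro s hs
      obtain ⟨g, hg, hgs⟩ := hSG s (Finset.mem_coe.1 hs)
      have hsT : s ∈ C.T := by
        rw [← hS]
        exact AddSubmonoid.subset_closure hs
      have hpg : psi C g = mon C.x s := by rw [psi, hgs]
      have hpO : psi C g ∈ nr C e := by
        rw [hpg]
        exact (le_sup_left : _ ≤ nr C e) (mon_mem_cr C hsT)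
      have hpv : V.valuation (psi C g) ≤ 1 := (V.valuation_le_one_iff _).2 (hA _ hpO)
      rw [← hpg]
      rcases hc g hg with h1 | h1
      · exact mem_of_inCone hψ hec h1
      · have h2 : psi C (-g) ∈ cst (locV V (nr C e)) J := mem_of_inCone hψ hec h1
        have h3 : V.valuation (psi C (-g)) ≤ 1 := val_le_one_of_inCone hψ hev h1
        rw [hψ.neg] at h2 h3
        have h4 : V.valuation (psi C g) = 1 := by
          rw [map_inv₀, inv_le_one₀ ((Valuation.pos_iff _).2 (hψ.ne g))] at h3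
          exact le_antisymm hpv h3
        have h5 := cst_inv hJ h2 (by rw [map_inv₀, h4, inv_one]) (by
          rw [inv_inv]
          exact le_locV _ hpO)
        rwa [inv_inv] at h5
    have htor : tor k C.x C.y C.T ≤ cst (locV V (nr C e)) J := tor_le C.x_ne hS hsc hyc
    have hθO : C.θ ∈ locV V (nr C e) := le_locV _ ((le_sup_left : _ ≤ nr C e) (θ_mem_cr C))
    obtain ⟨cθ, hcθ⟩ := hV.res C.θ (locV_mem hA _ hθO)
    have hθ : C.θ ∈ cst (locV V (nr C e)) J :=
      cst_root hV.ov (locV_mem hA) (locV_closed _) hJ (fun i => htor (C.coeff i)) hθO hcθ C.root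
        (C.der V hV hF)
    refine locV_le (sup_le (Algebra.adjoin_le ?_) (Algebra.adjoin_le ?_)) ?_
    · rintro z (hz | hz)
      · exact htor hz
      · rw [Set.mem_singleton_iff.1 hz]
        exact hθ
    · rintro _ ⟨i, rfl⟩
      exact hec i
    · intro f hf h1
      exact cst_inv hJ hf h1 (locV_inv hf.1 h1)

/-- `K` is the field of fractions of the normalised local rings of a finite model. -/
theorem frac_NV (hfin : Fin' P) {f : K} (hf : IsMin V P f) (z : K) :
    ∃ b ∈ NV V P, ∃ c ∈ NV V P, c ≠ 0 ∧ z = b / c := by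
  obtain ⟨c, hc0, hc⟩ := (hfin.isAlgebraic hf.ne z).exists_integral_multiple
  have hcK : (c : K) ≠ 0 := fun h => hc0 (Subtype.ext h)
  refine ⟨c * z, ?_, c, ?_, hcK, by field_simp⟩
  · rw [NV_eq hf]
    exact le_locV _ hc
  · rw [NV_eq hf]
    exact le_locV _ (le_ncl _ c.2)

/-- **The count for a chart**, complete form. -/
theorem chart_regAt (hn : Algebra.trdeg k K = n) (hP : IsModel P) (hfin : Fin' P)
    (C : TChart n P Q a 1) {G : Set (Vec N)} (hG : Good C G) (hV : ZDim k V)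
    (hF : ∀ z ∈ C.F, z ∈ V) {e : Module.Basis (Fin N) ℤ (Vec N)} (he : ∀ i, psi C (e i) ∈ V)
    (hc : ∀ g ∈ G, InCone e g ∨ InCone e (-g)) :
    ∃ t : Fin n → K,
      RegAt V (locV V (NV V P ⊔ Algebra.adjoin k (Set.range fun i => psi C (e i)))) t ∧
      ∀ b, InCone e b ∨ InCone e (-b) →
        Mono V (locV V (NV V P ⊔ Algebra.adjoin k (Set.range fun i => psi C (e i)))) t
          (psi C b) := by
  obtain ⟨-, h1, t, ht, -, hm⟩ := chart_par hn hP C hG hV hF he hc
  refine ⟨t, ⟨?_, ⟨nr C e, fg_nr C e, h1.symm⟩, fun z => ?_⟩, ?_⟩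
  · rw [← h1]
    exact ht
  · obtain ⟨b, hb, c, hc, hc0, hz⟩ := frac_NV hfin (C.min V hV hF) z
    exact ⟨b, le_locV _ ((le_sup_left : NV V P ≤ _) hb), c,
      le_locV _ ((le_sup_left : NV V P ≤ _) hc), hc0, hz⟩
  · rw [← h1]
    exact hm

end Chart

end Pool.Agent.TGAh24
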